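import Pool.Agent.Helper30.AC.Stmts

set_option autoImplicit false

open Filter Topology Uniformity

namespace Pool.Agent.Helper14.AC

open Pool.Agent.Helper30.AC

universe u

section

variable {E : Type u} [NormedAddCommGroup E] [NormedSpace ℝ E]

theorem dd_one {K : Set E} {v : E} (hv : v ∈ K) : ((1 : ℝ), v) ∈ DD K :=
  ⟨zero_le_one, le_refl _, v, hv, (one_smul ℝ v).symm⟩

theorem dd_zero {K : Set E} (h0 : (0 : E) ∈ K) : ((0 : ℝ), (0 : E)) ∈ DD K :=
  ⟨le_refl _, zero_le_one, 0, h0, (smul_zero (0 : ℝ)).symm⟩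

theorem mem_const {K : Set E} (y : ℕ → E →L[ℝ] ℝ) (h0 : (0 : E) ∈ K) {v : E} (hv : v ∈ K) :
    LL y (fun _ => v) ∈ XX K y := by
  refine ⟨(fun _ => 1, fun _ => v), fun n => ⟨dd_one hv, ?_⟩, rfl⟩
  have : ((1 : ℝ) - 1, v - v) = ((0 : ℝ), (0 : E)) := by simp
  show ((1 : ℝ) - 1, v - v) ∈ DD K
  rw [this]
  exact dd_zero h0

theorem mem_cut {K : Set E} (y : ℕ → E →L[ℝ] ℝ) (h0 : (0 : E) ∈ K) (N : ℕ) {v : E} (hv : v ∈ K) :
    LL y (fun n => if n < N then v else 0) ∈ XX K y := by
  refine ⟨(fun n => if n < N then 1 else 0, fun n => if n < N then v else 0), fun n => ⟨?_, ?_⟩,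
    rfl⟩
  · show ((if n < N then (1 : ℝ) else 0), (if n < N then v else 0)) ∈ DD K
    by_cases h : n < N
    · rw [if_pos h, if_pos h]
      exact dd_one hv
    · rw [if_neg h, if_neg h]
      exact dd_zero h0
  · show ((if n < N then (1 : ℝ) else 0) - (if n + 1 < N then (1 : ℝ) else 0),
      (if n < N then v else 0) - (if n + 1 < N then v else 0)) ∈ DD K
    by_cases h : n < N
    · by_cases h' : n + 1 < N
      · rw [if_pos h, if_pos h', if_pos h, if_pos h', sub_self, sub_self]
        exact dd_zero h0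
      · rw [if_pos h, if_neg h', if_pos h, if_neg h', sub_zero, sub_zero]
        exact dd_one hv
    · have h' : ¬ n + 1 < N := by omega
      rw [if_neg h, if_neg h', if_neg h, if_neg h', sub_zero, sub_zero]
      exact dd_zero h0

end

/-- row CL -/
theorem st_CL (h0 : ST_COM.{u}) (h1 : ST_ALG.{u}) : ST_CL.{u} := by
  intro E _ _ K y F hK hF haff
  have hz : (0 : E) ∈ K := hK.2.2.1
  refine ⟨fun v hv => mem_const y hz hv, ?_⟩
  intro ε hε
  have hcpt : IsCompact (XX K y) := (h0 E K y hK).1
  haveI : CompactSpace (XX K y) := isCompact_iff_compactSpace.mp hcpt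
  have huc : UniformContinuous F := CompactSpace.uniformContinuous_of_continuous hF
  let xi : K → XX K y := fun v => ⟨LL y (fun _ => (v : E)), mem_const y hz v.2⟩
  let xN : ℕ → K → XX K y := fun N v =>
    ⟨LL y (fun n => if n < N then (v : E) else 0), mem_cut y hz N v.2⟩
  have hunif : TendstoUniformly xN xi atTop := by
    rw [tendstoUniformly_iff_tendsto, uniformity_subtype, tendsto_comap_iff, Pi.uniformity,
      tendsto_iInf]
    intro n
    rw [tendsto_comap_iff]
    intro t ht
    have hev : ∀ᶠ q : ℕ × K in (atTop : Filter ℕ) ×ˢ (⊤ : Filter K), n < q.1 :=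
      (eventually_gt_atTop n).prod_inl _
    rw [Filter.mem_map]
    refine Filter.mem_of_superset hev ?_
    intro q hq0
    have hq : n < q.1 := hq0
    have he : (xN q.1 q.2 : ℕ → ℕ → ℝ) n = (xi q.2 : ℕ → ℕ → ℝ) n := by
      show rho y n (if n < q.1 then (q.2 : E) else 0) = rho y n (q.2 : E)
      rw [if_pos hq]
    show ((xi q.2 : ℕ → ℕ → ℝ) n, (xN q.1 q.2 : ℕ → ℕ → ℝ) n) ∈ t
    rw [he]
    exact refl_mem_uniformity ht
  have hFu := huc.comp_tendstoUniformly hunif
  rw [Metric.tendstoUniformly_iff] at hFu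
  obtain ⟨N, hN⟩ := (hFu ε hε).exists
  obtain ⟨c, L, hL⟩ := h1 E K y N (fun v => F (xN N v)) hK
    (by
      intro a b z t ht0 ht1 hzab
      refine haff (xN N a) (xN N b) (xN N z) t ht0 ht1 ?_
      funext n i
      show rho y n (if n < N then (z : E) else 0) i =
        t * rho y n (if n < N then (a : E) else 0) i +
          (1 - t) * rho y n (if n < N then (b : E) else 0) i
      unfold rho
      by_cases h : n < N
      · by_cases h' : i ≤ n
        · rw [if_pos h, if_pos h, if_pos h, if_pos h', if_pos h', if_pos h', hzab]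
          simp
        · rw [if_neg h', if_neg h', if_neg h']
          ring
      · by_cases h' : i ≤ n
        · rw [if_neg h, if_neg h, if_neg h, if_pos h']
          simp
        · rw [if_neg h', if_neg h', if_neg h']
          ring)
    (by
      intro v w hvw
      have he : xN N v = xN N w := by
        apply Subtype.ext
        funext n i
        show rho y n (if n < N then (v : E) else 0) i = rho y n (if n < N then (w : E) else 0) i
        unfold rho
        by_cases h' : i ≤ n
        · by_cases h : n < N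
          · rw [if_pos h, if_pos h, if_pos h', if_pos h']
            exact hvw i (lt_of_le_of_lt h' h)
          · rw [if_neg h, if_neg h]
        · rw [if_neg h', if_neg h']
      show F (xN N v) = F (xN N w)
      rw [he])
  refine ⟨N, c, L, fun v hv => ?_⟩
  have h2 := hN ⟨v, hv⟩
  have h3 := hL ⟨v, hv⟩
  have h4 : c + ∑ i ∈ Finset.range N, y i v • L i = F (xN N ⟨v, hv⟩) := h3.symm
  rw [h4]
  have h5 : dist (F (xi ⟨v, hv⟩)) (F (xN N ⟨v, hv⟩)) < ε := h2
  rw [dist_eq_norm] at h5
  exact h5.le

end Pool.Agent.Helper14.AC
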